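import Pool.Agent.Q259.WF.All

/-!
# Wolf's formula for the generalized Brun constants fails at h = 6
-/

namespace Pool.Agent.Results.MP_a19cb6_nt.FailsAtSix

open Finset Pool.Agent.Q259.WF
open scoped ENNReal

/-- the generalized Brun constant: the sum of `1 / p + 1 / (p + h)` over all primes `p` such that `p` and `p + h`
are consecutive primes, in `[0, ∞]` -/
noncomputable def gapConst (h : ℕ) : ℝ≥0∞ :=
  ∑' p : {p : ℕ // IsGapPair h p}, ENNReal.ofReal (1 / ((p : ℕ) : ℝ) + 1 / (((p : ℕ) : ℝ) + (h : ℝ)))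

/-- the twin prime constant -/
noncomputable def twinConst : ℝ :=
  ∏' p : {p : ℕ // p.Prime ∧ 2 < p}, (1 - 1 / (((p : ℕ) : ℝ) - 1) ^ 2)

/-- the right-hand side of Wolf's formula -/
noncomputable def wolf (h : ℕ) : ℝ :=
  4 * twinConst / (h : ℝ) * ∏ p ∈ h.primeFactors.filter (fun p => 2 < p), (((p : ℝ) - 1) / ((p : ℝ) - 2))

/-- the odd primes below 139 -/
def pa : List ℕ := [3, 5, 7, 11, 13, 17, 19, 23, 29, 31, 37, 41, 43, 47, 53, 59, 61, 67, 71, 73,
  79, 83, 89, 97, 101, 103, 107, 109, 113, 127, 131, 137]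

/-- the primes from 139 to 997 -/
def pb : List ℕ := [139, 149, 151, 157, 163, 167, 173, 179, 181, 191, 193, 197, 199, 211, 223, 227, 229, 233, 239, 241,
  251, 257, 263, 269, 271, 277, 281, 283, 293, 307, 311, 313, 317, 331, 337, 347, 349, 353, 359, 367,
  373, 379, 383, 389, 397, 401, 409, 419, 421, 431, 433, 439, 443, 449, 457, 461, 463, 467, 479, 487,
  491, 499, 503, 509, 521, 523, 541, 547, 557, 563, 569, 571, 577, 587, 593, 599, 601, 607, 613, 617,
  619, 631, 641, 643, 647, 653, 659, 661, 673, 677, 683, 691, 701, 709, 719, 727, 733, 739, 743, 751,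
  757, 761, 769, 773, 787, 797, 809, 811, 821, 823, 827, 829, 839, 853, 857, 859, 863, 877, 881, 883,
  887, 907, 911, 919, 929, 937, 941, 947, 953, 967, 971, 977, 983, 991, 997]

/-- the odd primes below 1000 -/
def pl : List ℕ := pa ++ pb

theorem pa_prime : ∀ p ∈ pa, p.Prime ∧ 2 < p := by
  unfold pa
  simp only [List.forall_mem_cons, List.not_mem_nil, false_implies, implies_true, and_true]
  norm_num

theorem pb_prime : ∀ p ∈ pb, p.Prime ∧ 2 < p := by
  have h : (pb.all fun p => (p % 6 == 1 || p % 6 == 5) && (Nat.ble 3 p && (Nat.ble p 1000 && Nat.beq (Nat.gcd p P1) 1))) = true := by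
    decide +kernel
  intro p hp
  have h1 := List.all_eq_true.1 h p hp
  simp only [Bool.and_eq_true, Bool.or_eq_true, beq_iff_eq] at h1
  obtain ⟨h2, h3, h4, h5⟩ := h1
  have h3' := Nat.le_of_ble_eq_true h3
  have h4' := Nat.le_of_ble_eq_true h4
  exact ⟨good_P1.prime h2 (by omega) (by omega) (Nat.eq_of_beq_eq_true h5), by omega⟩

theorem pl_prime : ∀ p ∈ pl, p.Prime ∧ 2 < p := by
  intro p hp
  unfold pl at hp
  rcases List.mem_append.1 hp with h | h
  · exact pa_prime p h
  · exact pb_prime p h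

theorem pl_nodup : pl.Nodup := by decide +kernel

theorem factor_nonneg (p : {p : ℕ // p.Prime ∧ 2 < p}) : 0 ≤ 1 - 1 / (((p : ℕ) : ℝ) - 1) ^ 2 := by
  have h : (3 : ℝ) ≤ ((p : ℕ) : ℝ) := by exact_mod_cast p.2.2
  have h1 : (1 : ℝ) ≤ (((p : ℕ) : ℝ) - 1) ^ 2 := by nlinarith
  have h2 : 1 / (((p : ℕ) : ℝ) - 1) ^ 2 ≤ 1 := by
    rw [div_le_one (by linarith)]
    exact h1
  linarith

theorem factor_le_one (p : {p : ℕ // p.Prime ∧ 2 < p}) : 1 - 1 / (((p : ℕ) : ℝ) - 1) ^ 2 ≤ 1 := by
  have : 0 ≤ 1 / (((p : ℕ) : ℝ) - 1) ^ 2 := by positivity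
  linarith

/-- the product defining the twin prime constant converges -/
theorem multipliable_twin :
    Multipliable fun p : {p : ℕ // p.Prime ∧ 2 < p} => (1 - 1 / (((p : ℕ) : ℝ) - 1) ^ 2) := by
  have h0 : Summable fun n : ℕ => 4 / ((n : ℝ)) ^ 2 := by
    have := (Real.summable_one_div_nat_pow (p := 2)).2 (by norm_num)
    simpa [div_eq_mul_inv] using this.mul_left 4
  have h1 : Summable fun p : {p : ℕ // p.Prime ∧ 2 < p} => 4 / (((p : ℕ) : ℝ)) ^ 2 :=
    h0.comp_injective Subtype.coe_injective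
  have h2 : Summable fun p : {p : ℕ // p.Prime ∧ 2 < p} => -(1 / (((p : ℕ) : ℝ) - 1) ^ 2) := by
    apply Summable.of_norm_bounded h1
    intro p
    have h : (3 : ℝ) ≤ ((p : ℕ) : ℝ) := by exact_mod_cast p.2.2
    rw [norm_neg, Real.norm_eq_abs, abs_of_nonneg (by positivity)]
    rw [div_le_div_iff₀ (by nlinarith) (by nlinarith)]
    nlinarith
  have h3 := Real.multipliable_one_add_of_summable h2
  simpa [sub_eq_add_neg] using h3

theorem twin_le_prod (S : Finset {p : ℕ // p.Prime ∧ 2 < p}) :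
    twinConst ≤ ∏ p ∈ S, (1 - 1 / (((p : ℕ) : ℝ) - 1) ^ 2) := by
  have h := multipliable_twin.hasProd
  apply le_of_tendsto h
  rw [SummationFilter.unconditional_filter]
  filter_upwards [Filter.eventually_ge_atTop S] with U hU
  have hU' : S ⊆ U := hU
  rw [← Finset.prod_sdiff hU']
  apply mul_le_of_le_one_left
  · exact Finset.prod_nonneg fun p _ => factor_nonneg p
  · exact Finset.prod_le_one (fun p _ => factor_nonneg p) fun p _ => factor_le_one p

theorem prod_pl : ∏ p ∈ pl.toFinset, (1 - 1 / ((p : ℝ) - 1) ^ 2) ≤ 0.66025 := by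
  rw [List.prod_toFinset _ pl_nodup]
  have h : (pl.map fun p : ℕ => (1 - 1 / ((p : ℝ) - 1) ^ 2)).prod =
      (((pl.map fun p : ℕ => p * (p - 2)).prod : ℕ) : ℝ) / (((pl.map fun p : ℕ => (p - 1) ^ 2).prod : ℕ) : ℝ) := by
    have key : ∀ l : List ℕ, (∀ p ∈ l, 2 < p) → (l.map fun p : ℕ => (1 - 1 / ((p : ℝ) - 1) ^ 2)).prod =
      (((l.map fun p : ℕ => p * (p - 2)).prod : ℕ) : ℝ) / (((l.map fun p : ℕ => (p - 1) ^ 2).prod : ℕ) : ℝ) := by
      intro l
      induction l with
      | nil => intro _; simp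
      | cons a l ih =>
        intro hl
        have ha : 2 < a := hl a (by simp)
        have ih' := ih fun p hp => hl p (by simp [hp])
        simp only [List.map_cons, List.prod_cons]
        rw [ih']
        push_cast [Nat.cast_sub (show 2 ≤ a by omega), Nat.cast_sub (show 1 ≤ a by omega)]
        have ha1 : ((a : ℝ) - 1) ≠ 0 := by
          have : (2 : ℝ) < a := by exact_mod_cast ha
          linarith
        have e : (1 - 1 / ((a : ℝ) - 1) ^ 2) = (a * (a - 2)) / ((a : ℝ) - 1) ^ 2 := by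
          field_simp
          ring
        rw [e, div_mul_div_comm]
    exact key pl fun p hp => (pl_prime p hp).2
  rw [h]
  have hpos : 0 < (pl.map fun p : ℕ => (p - 1) ^ 2).prod := by decide +kernel
  have hle : (pl.map fun p : ℕ => p * (p - 2)).prod * 100000 ≤ 66025 * (pl.map fun p : ℕ => (p - 1) ^ 2).prod := by
    decide +kernel
  rw [div_le_iff₀ (by exact_mod_cast hpos)]
  have hle' : (((pl.map fun p : ℕ => p * (p - 2)).prod : ℕ) : ℝ) * 100000 ≤
      66025 * (((pl.map fun p : ℕ => (p - 1) ^ 2).prod : ℕ) : ℝ) := by exact_mod_cast hle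
  linarith

theorem twin_le : twinConst ≤ 0.66025 := by
  have h1 := twin_le_prod (pl.toFinset.subtype fun p => p.Prime ∧ 2 < p)
  have h2 : ∏ p ∈ pl.toFinset.subtype (fun p => p.Prime ∧ 2 < p), (1 - 1 / (((p : ℕ) : ℝ) - 1) ^ 2) =
      ∏ p ∈ pl.toFinset, (1 - 1 / ((p : ℝ) - 1) ^ 2) := by
    rw [Finset.prod_subtype_of_mem (fun p : ℕ => (1 - 1 / ((p : ℝ) - 1) ^ 2))]
    intro p hp
    exact pl_prime p (List.mem_toFinset.1 hp)
  rw [h2] at h1
  exact h1.trans prod_pl

theorem wolf_six : wolf 6 ≤ 4 / 3 * 0.66025 := by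
  have h6 : (6 : ℕ).primeFactors.filter (fun p => 2 < p) = {3} := by
    have : (6 : ℕ).primeFactors = {2, 3} := by
      rw [show (6 : ℕ) = 2 * 3 by norm_num, Nat.primeFactors_mul (by norm_num) (by norm_num),
        Nat.Prime.primeFactors (by norm_num), Nat.Prime.primeFactors (by norm_num)]
      rfl
    rw [this]
    decide
  unfold wolf
  rw [h6, Finset.prod_singleton]
  have := twin_le
  norm_num at this ⊢
  linarith

/-- the first pairs of consecutive primes with difference six -/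
def sl : List ℕ := [23, 31, 47, 53, 61, 73, 83, 131, 151, 157, 167, 173, 233, 251, 257, 263, 271, 331, 353, 367, 373, 383]

theorem sl_gap : ∀ p ∈ sl, IsGapPair 6 p ∧ p < 396 := by
  unfold sl
  simp only [List.forall_mem_cons, List.not_mem_nil, false_implies, implies_true, and_true]
  refine ⟨?_, ?_, ?_, ?_, ?_, ?_, ?_, ?_, ?_, ?_, ?_, ?_, ?_, ?_, ?_, ?_, ?_, ?_, ?_, ?_, ?_, ?_⟩
  all_goals
    refine ⟨⟨by norm_num, by norm_num, ?_⟩, by norm_num⟩
    intro q h1 h2
    interval_cases q <;> norm_num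

theorem sl_nodup : sl.Nodup := by decide

theorem sl_sum : (0.4241101 : ℝ) ≤ ∑ p ∈ sl.toFinset, (1 / (p : ℝ) + 1 / ((p : ℝ) + 6)) := by
  rw [List.sum_toFinset _ sl_nodup]
  unfold sl
  norm_num

/-- Wolf's formula for the generalized Brun constants is false for `h = 6`: the sum over the pairs of consecutive
primes with difference `6` is larger than the right-hand side. -/
theorem result : ENNReal.ofReal (wolf 6) < gapConst 6 ∧
    ¬ ∀ h : ℕ, 6 ≤ h → Even h → gapConst h = ENNReal.ofReal (wolf h) := by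
  classical
  have key : ENNReal.ofReal (wolf 6) < gapConst 6 := by
    set F1 := (Finset.Ioc 391 302997691).filter (fun p => IsGapPair 6 p ∧ p % 6 = 1) with hF1
    set F5 := (Finset.Ioc 395 302995691).filter (fun p => IsGapPair 6 p ∧ p % 6 = 5) with hF5
    set f : ℕ → ℝ := fun p => 1 / (p : ℝ) + 1 / ((p : ℝ) + 6) with hf
    have hf0 : ∀ p, 0 ≤ f p := fun p => by rw [hf]; positivity
    have h1 : (219042842628505 : ℝ) / 1000000000000000 ≤ ∑ p ∈ F1, f p := by
      have h3 : (219042842628505 : ℝ) ≤ T * ∑ p ∈ F1, f p := t1_10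
      have h4 : (T : ℝ) = 1000000000000000 := by
        unfold T
        norm_num
      rw [h4] at h3
      rw [div_le_iff₀ (by norm_num)]
      linarith
    have h5 : (237219332996856 : ℝ) / 1000000000000000 ≤ ∑ p ∈ F5, f p := by
      have h3 : (237219332996856 : ℝ) ≤ T * ∑ p ∈ F5, f p := t5_10
      have h4 : (T : ℝ) = 1000000000000000 := by
        unfold T
        norm_num
      rw [h4] at h3
      rw [div_le_iff₀ (by norm_num)]
      linarith
    have hsl : (0.4241101 : ℝ) ≤ ∑ p ∈ sl.toFinset, f p := sl_sum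
    have hd1 : Disjoint F1 F5 := by
      rw [Finset.disjoint_left]
      intro x hx hy
      rw [hF1, Finset.mem_filter] at hx
      rw [hF5, Finset.mem_filter] at hy
      omega
    have hslt : ∀ p ∈ sl, p ≤ 383 := by decide
    have hd2 : Disjoint sl.toFinset (F1 ∪ F5) := by
      rw [Finset.disjoint_left]
      intro x hx hy
      have h6 := hslt x (List.mem_toFinset.1 hx)
      rw [Finset.mem_union, hF1, hF5, Finset.mem_filter, Finset.mem_filter, Finset.mem_Ioc, Finset.mem_Ioc] at hy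
      omega
    set S := sl.toFinset ∪ (F1 ∪ F5) with hS
    have hsum : (0.88037 : ℝ) ≤ ∑ p ∈ S, f p := by
      rw [hS, Finset.sum_union hd2, Finset.sum_union hd1]
      norm_num at h1 h5 hsl ⊢
      linarith
    have hSg : ∀ p ∈ S, IsGapPair 6 p := by
      intro p hp
      rw [hS, Finset.mem_union, Finset.mem_union, hF1, hF5, Finset.mem_filter, Finset.mem_filter] at hp
      rcases hp with h | h | h
      · exact (sl_gap p (List.mem_toFinset.1 h)).1
      · exact h.2.1
      · exact h.2.1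
    have h2 : ENNReal.ofReal (∑ p ∈ S, f p) ≤ gapConst 6 := by
      unfold gapConst
      rw [ENNReal.ofReal_sum_of_nonneg (fun i _ => hf0 i)]
      have e : ∑ p ∈ S, ENNReal.ofReal (f p) =
          ∑ p ∈ S.subtype (IsGapPair 6), ENNReal.ofReal (1 / ((p : ℕ) : ℝ) + 1 / (((p : ℕ) : ℝ) + ((6 : ℕ) : ℝ))) := by
        have h5 := Finset.sum_subtype_of_mem (fun p : ℕ => ENNReal.ofReal (f p))
          (s := S) (p := IsGapPair 6) hSg
        rw [← h5]
        norm_num [hf]
      rw [e]
      exact ENNReal.sum_le_tsum _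
    refine lt_of_lt_of_le ?_ h2
    rw [ENNReal.ofReal_lt_ofReal_iff (by linarith)]
    have := wolf_six
    norm_num at this hsum ⊢
    linarith
  exact ⟨key, fun h => key.ne' (h 6 le_rfl (by decide))⟩

end Pool.Agent.Results.MP_a19cb6_nt.FailsAtSix
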